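import Pool.Agent.W711.CR.Stm

/-!
# CR-SEMI: from a GoodPair to the isomorphism of the group von Neumann algebras
-/

set_option autoImplicit false

namespace Pool.Agent.W29.CR

open Pool.Agent.W711.CR

noncomputable section

theorem chi_add (a b : ZMod 4) : chi (a + b) = chi a * chi b := by
  have h4 : ∀ n : ℕ, (Complex.I : ℂ) ^ (n % 4) = Complex.I ^ n := by
    intro n
    conv_rhs => rw [← Nat.mod_add_div n 4]
    rw [pow_add, pow_mul, Complex.I_pow_four, one_pow, mul_one]
  unfold chi
  rw [ZMod.val_add, h4, pow_add]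

theorem chi_zero : chi 0 = 1 := by
  unfold chi
  simp

theorem chi_neg (a : ZMod 4) : chi (-a) = (starRingEnd ℂ) (chi a) := by
  have h1 : chi (-a) * chi a = 1 := by
    rw [← chi_add, neg_add_cancel, chi_zero]
  have h2 : (starRingEnd ℂ) (chi a) * chi a = 1 := by
    unfold chi
    rw [map_pow, Complex.conj_I, ← mul_pow]
    simp
  have h3 : chi a ≠ 0 := by
    intro h
    rw [h, mul_zero] at h1
    exact zero_ne_one h1
  exact mul_right_cancel₀ h3 (h1.trans h2.symm)

theorem cf_add {X : Type} (a b : Fn X) : cf (a + b) = cf a * cf b := by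
  funext x
  exact chi_add (a x) (b x)

theorem cf_zero {X : Type} : cf (0 : Fn X) = 1 := by
  funext x
  exact chi_zero

/-- the family of characters -/
def vv {X : Type} (W : AddSubgroup (Fn X)) : W → (X → ℂ) := fun w => cf w.1

theorem range_vv {X : Type} (W : AddSubgroup (Fn X)) :
    Set.range (vv W) = cf '' (W : Set (Fn X)) := by
  ext f
  constructor
  · rintro ⟨w, rfl⟩
    exact ⟨w.1, w.2, rfl⟩
  · rintro ⟨w, hw, rfl⟩
    exact ⟨⟨w, hw⟩, rfl⟩

section

variable {X : Type} (W : AddSubgroup (Fn X)) (τ : (X → ℂ) →ₗ[ℂ] ℂ)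
  (hτ : ∀ w ∈ W, (w = 0 → τ (cf w) = 1) ∧ (w ≠ 0 → τ (cf w) = 0))

include hτ in
theorem coef (w0 : W) (l : W →₀ ℂ) :
    τ (cf (-w0.1) * Finsupp.linearCombination ℂ (vv W) l) = l w0 := by
  classical
  rw [Finsupp.linearCombination_apply, Finsupp.sum, Finset.mul_sum, map_sum]
  have h : ∀ w : W, τ (cf (-w0.1) * (l w • vv W w)) = if w = w0 then l w0 else 0 := by
    intro w
    rw [mul_smul_comm, map_smul]
    have h1 : cf (-w0.1) * vv W w = cf ((w - w0 : W).1) := by
      rw [vv, ← cf_add]
      congr 1
      rw [AddSubgroup.coe_sub]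
      abel
    rw [h1]
    by_cases hw : w = w0
    · subst hw
      rw [if_pos rfl, ((hτ _ (w - w : W).2).1 (by simp)), smul_eq_mul, mul_one]
    · rw [if_neg hw, ((hτ _ (w - w0 : W).2).2 _), smul_zero]
      intro h0
      apply hw
      have : w - w0 = 0 := Subtype.ext h0
      exact sub_eq_zero.mp this
  rw [Finset.sum_congr rfl fun w _ => h w, Finset.sum_ite_eq' l.support w0]
  split_ifs with h0
  · rfl
  · exact (Finsupp.notMem_support_iff.mp h0).symm

include hτ in
theorem lc_inj : Function.Injective (Finsupp.linearCombination ℂ (vv W)) := by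
  intro l l' h
  ext w
  rw [← coef W τ hτ w l, ← coef W τ hτ w l', h]

end

theorem exists_coef {X : Type} (W A : AddSubgroup (Fn X))
    (h : Submodule.span ℂ (cf '' (W : Set (Fn X))) = Submodule.span ℂ (cf '' (A : Set (Fn X))))
    (a : A) : ∃ l : W →₀ ℂ, Finsupp.linearCombination ℂ (vv W) l = cf a.1 := by
  have h1 : cf a.1 ∈ Submodule.span ℂ (Set.range (vv W)) := by
    rw [range_vv, h]
    exact Submodule.subset_span ⟨a.1, a.2, rfl⟩
  rwa [Finsupp.mem_span_range_iff_exists_finsupp] at h1

theorem semi (hL : P_L) : P_semi := by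
  classical
  intro Γ X _ _ S T hG
  obtain ⟨τ, hτS, hτT⟩ := hG.mean
  choose c0 hc0 using exists_coef S.W T.W hG.span_eq
  have hinj := lc_inj S.W τ hτS
  have hlc : ∀ l : S.W →₀ ℂ, Finsupp.linearCombination ℂ (vv S.W) l
      = ∑ w ∈ l.support, l w • vv S.W w := fun l => rfl
  -- properties of `c0`
  have p1 : c0 0 = Finsupp.single 0 1 := by
    apply hinj
    rw [hc0, Finsupp.linearCombination_single, one_smul]
    rfl
  have p2 : ∀ a a' : T.W, c0 (a + a') = (c0 a).sum fun w s => (c0 a').sum fun w' t =>
      Finsupp.single (w + w') (s * t) := by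
    intro a a'
    apply hinj
    rw [hc0, AddSubgroup.coe_add, cf_add, ← hc0 a, ← hc0 a', hlc (c0 a), hlc (c0 a')]
    simp only [Finsupp.sum, map_sum, Finsupp.linearCombination_single]
    rw [Finset.sum_mul]
    refine Finset.sum_congr rfl fun w _ => ?_
    rw [Finset.mul_sum]
    refine Finset.sum_congr rfl fun w' _ => ?_
    rw [smul_mul_smul_comm]
    congr 1
    exact (cf_add w.1 w'.1).symm
  have p3 : ∀ (a : T.W) (w : S.W), c0 (-a) w = (starRingEnd ℂ) (c0 a (-w)) := by
    intro a w
    have h1 : c0 (-a) = (c0 a).sum fun w s => Finsupp.single (-w) ((starRingEnd ℂ) s) := by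
      apply hinj
      rw [hc0]
      have h2 : cf (-a : T.W).1 = fun x => (starRingEnd ℂ) (cf a.1 x) := by
        funext x
        exact chi_neg (a.1 x)
      rw [h2, ← hc0 a, hlc (c0 a)]
      simp only [Finsupp.sum, map_sum, Finsupp.linearCombination_single]
      funext x
      rw [Finset.sum_apply, Finset.sum_apply, map_sum]
      refine Finset.sum_congr rfl fun w _ => ?_
      rw [Pi.smul_apply, Pi.smul_apply, smul_eq_mul, smul_eq_mul, map_mul]
      congr 1
      exact (chi_neg (w.1 x)).symm
    rw [h1, Finsupp.sum_apply]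
    have h3 : ∀ w' : S.W, ∀ s : ℂ, (Finsupp.single (-w') ((starRingEnd ℂ) s) : S.W →₀ ℂ) w
        = if w' = -w then (starRingEnd ℂ) s else 0 := by
      intro w' s
      rw [Finsupp.single_apply]
      by_cases h : w' = -w
      · rw [if_pos h, if_pos (by rw [h, neg_neg])]
      · rw [if_neg h, if_neg (fun h' => h (by rw [← h', neg_neg]))]
    rw [Finsupp.sum, Finset.sum_congr rfl fun w' _ => h3 w' _]
    rw [Finset.sum_ite_eq' (c0 a).support (-w)]
    split_ifs with h0
    · rfl
    · rw [Finsupp.notMem_support_iff.mp h0, map_zero]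
  have p4 : ∀ a : T.W, a ≠ 0 → c0 a 0 = 0 := by
    intro a ha
    have h1 := coef S.W τ hτS 0 (c0 a)
    rw [hc0] at h1
    rw [← h1]
    have h2 : cf (-(0 : S.W).1) = 1 := by
      rw [AddSubgroup.coe_zero, neg_zero, cf_zero]
    rw [h2, one_mul]
    refine (hτT a.1 a.2).2 fun h => ha (Subtype.ext h)
  -- the action
  let aS : Γ → S.W → S.W := fun g w => ⟨fun x => w.1 (g⁻¹ • x), S.stable g _ w.2⟩
  let aT : Γ → T.W → T.W := fun g w => ⟨fun x => w.1 (g⁻¹ • x), T.stable g _ w.2⟩
  have p5 : ∀ (g : Γ) (a : T.W), c0 (aT g a) = (c0 a).mapDomain (aS g) := by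
    intro g a
    apply hinj
    rw [hc0, Finsupp.linearCombination_mapDomain]
    funext x
    have h1 : cf (aT g a).1 x = cf a.1 (g⁻¹ • x) := rfl
    rw [h1, ← hc0 a]
    simp only [Finsupp.linearCombination_apply, Finsupp.sum, Finset.sum_apply, Pi.smul_apply]
    rfl
  have aSinj : ∀ g : Γ, Function.Injective (aS g) := by
    intro g w w' h
    apply Subtype.ext
    funext x
    have h1 := congrArg (fun v : S.W => v.1 (g • x)) h
    change w.1 (g⁻¹ • g • x) = w'.1 (g⁻¹ • g • x) at h1
    rwa [inv_smul_smul] at h1
  have p5' : ∀ (g : Γ) (a : T.W) (w : S.W), c0 (aT g a) (aS g w) = c0 a w := by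
    intro g a w
    rw [p5, Finsupp.mapDomain_apply (aSinj g)]
  -- the map `c`
  let e : Γ → S.W → Sd S := fun g w => ⟨Multiplicative.ofAdd w, g⟩
  have einj : ∀ g, Function.Injective (e g) := by
    intro g w w' h
    have := congrArg SemidirectProduct.left h
    exact Multiplicative.ofAdd.injective this
  let c : Sd T → (Sd S →₀ ℂ) := fun h => (c0 (Multiplicative.toAdd h.left)).mapDomain (e h.right)
  have hc_apply : ∀ (h : Sd T) (g : Sd S), c h g = if g.right = h.right then
      c0 (Multiplicative.toAdd h.left) (Multiplicative.toAdd g.left) else 0 := by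
    intro h g
    by_cases hg : g.right = h.right
    · rw [if_pos hg]
      have h1 : g = e h.right (Multiplicative.toAdd g.left) := by
        apply SemidirectProduct.ext
        · rfl
        · exact hg
      conv_lhs => rw [h1]
      exact Finsupp.mapDomain_apply (einj _) _ _
    · rw [if_neg hg]
      apply Finsupp.mapDomain_of_notMem_range
      rintro ⟨w, hw⟩
      exact hg (by rw [← hw])
  apply hL (Sd S) (Sd T) c
  · change (c0 (Multiplicative.toAdd (1 : Sd T).left)).mapDomain (e (1 : Sd T).right) = _
    rw [SemidirectProduct.one_left, SemidirectProduct.one_right, toAdd_one, p1,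
      Finsupp.mapDomain_single]
    rfl
  · intro h h'
    have e1 : Multiplicative.toAdd (h * h').left =
        Multiplicative.toAdd h.left + aT h.right (Multiplicative.toAdd h'.left) := by
      rw [SemidirectProduct.mul_left, toAdd_mul]
      rfl
    have hcsum : ∀ (h : Sd T) (F : Sd S → ℂ → (Sd S →₀ ℂ)), (∀ x, F x 0 = 0) →
        (∀ x s t, F x (s + t) = F x s + F x t) →
        (c h).sum F = (c0 (Multiplicative.toAdd h.left)).sum fun w s => F (e h.right w) s := by
      intro h F h0 hadd
      exact Finsupp.sum_mapDomain_index (fun x => h0 x) (fun x s t => hadd x s t)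
    rw [hcsum h]
    · have e2 : ∀ (w : S.W) (s : ℂ), ((c h').sum fun y t =>
          Finsupp.single (e h.right w * y) (s * t) : Sd S →₀ ℂ)
          = (c0 (Multiplicative.toAdd h'.left)).sum fun w' t =>
            Finsupp.single (e (h.right * h'.right) (w + aS h.right w')) (s * t) := by
        intro w s
        rw [hcsum h']
        · rfl
        · intro x
          rw [mul_zero, Finsupp.single_zero]
        · intro x s' t'
          rw [mul_add, Finsupp.single_add]
      simp only [e2]
      change (c0 (Multiplicative.toAdd (h * h').left)).mapDomain (e (h * h').right) = _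
      rw [e1, p2, SemidirectProduct.mul_right, p5]
      rw [Finsupp.mapDomain_sum]
      refine Finsupp.sum_congr fun w _ => ?_
      rw [Finsupp.mapDomain_sum, Finsupp.sum_mapDomain_index]
      · refine Finsupp.sum_congr fun w' _ => ?_
        rw [Finsupp.mapDomain_single]
      · intro b
        rw [mul_zero, Finsupp.single_zero, Finsupp.mapDomain_zero]
      · intro b s t
        rw [mul_add, Finsupp.single_add, Finsupp.mapDomain_add]
    · intro x
      simp
    · intro x s t
      rw [← Finsupp.sum_add]
      refine Finsupp.sum_congr fun y _ => ?_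
      rw [add_mul, Finsupp.single_add]
  · intro h g
    rw [hc_apply, hc_apply]
    rw [SemidirectProduct.inv_right, SemidirectProduct.inv_right]
    by_cases hg : g.right = h.right⁻¹
    · rw [if_pos hg, if_pos (by rw [hg, inv_inv])]
      have e1 : Multiplicative.toAdd (h⁻¹).left =
          aT h.right⁻¹ (-(Multiplicative.toAdd h.left)) := by
        rw [SemidirectProduct.inv_left]
        rfl
      have e2 : Multiplicative.toAdd (g⁻¹).left =
          -(aS h.right (Multiplicative.toAdd g.left)) := by
        rw [SemidirectProduct.inv_left, hg, inv_inv]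
        rfl
      rw [e1, e2]
      have e3 : Multiplicative.toAdd g.left =
          aS h.right⁻¹ (aS h.right (Multiplicative.toAdd g.left)) := by
        apply Subtype.ext
        funext x
        change (Multiplicative.toAdd g.left).1 x
          = (Multiplicative.toAdd g.left).1 (h.right⁻¹ • (h.right⁻¹)⁻¹ • x)
        rw [smul_inv_smul]
      conv_lhs => rw [e3]
      rw [p5', p3]
    · rw [if_neg hg, if_neg (fun h' => hg (by rw [← h', inv_inv])), map_zero]
  · intro h hh
    rw [hc_apply]
    split_ifs with h1
    · rw [SemidirectProduct.one_left, toAdd_one]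
      apply p4
      intro h2
      apply hh
      apply SemidirectProduct.ext
      · rw [SemidirectProduct.one_left]
        exact Multiplicative.toAdd.injective h2
      · rw [← h1, SemidirectProduct.one_right]
        rw [SemidirectProduct.one_right]
    · rfl
  · have hspan : ∀ g : Sd S, (Finsupp.single g 1 : Sd S →₀ ℂ) ∈
        Submodule.span ℂ (Set.range c) := by
      intro g
      obtain ⟨d, hd⟩ := exists_coef T.W S.W hG.span_eq.symm (Multiplicative.toAdd g.left)
      have h1 : ∑ a ∈ d.support, d a • c0 a = Finsupp.single (Multiplicative.toAdd g.left) 1 := by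
        apply hinj
        rw [map_sum, Finsupp.linearCombination_single, one_smul]
        change _ = cf (Multiplicative.toAdd g.left).1
        rw [← hd, Finsupp.linearCombination_apply, Finsupp.sum]
        refine Finset.sum_congr rfl fun a _ => ?_
        rw [map_smul, hc0]
        rfl
      have h2 : ∑ a ∈ d.support, d a • c (⟨Multiplicative.ofAdd a, g.right⟩ : Sd T)
          = Finsupp.single g 1 := by
        have h3 := congrArg (Finsupp.lmapDomain ℂ ℂ (e g.right)) h1
        rw [map_sum, Finsupp.lmapDomain_apply, Finsupp.mapDomain_single] at h3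
        rw [show Finsupp.single g (1 : ℂ) =
          Finsupp.single (e g.right (Multiplicative.toAdd g.left)) 1 from rfl, ← h3]
        refine Finset.sum_congr rfl fun a _ => ?_
        rw [map_smul]
        rfl
      rw [← h2]
      exact Submodule.sum_mem _ fun a _ => Submodule.smul_mem _ _
        (Submodule.subset_span ⟨_, rfl⟩)
    rw [eq_top_iff]
    intro f _
    rw [← Finsupp.sum_single f]
    refine Submodule.sum_mem _ fun g _ => ?_
    have h3 : Finsupp.single g (f g) = f g • (Finsupp.single g 1 : Sd S →₀ ℂ) := by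
      rw [Finsupp.smul_single, smul_eq_mul, mul_one]
    rw [h3]
    exact Submodule.smul_mem _ _ (hspan g)

end

end Pool.Agent.W29.CR
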